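import Mathlib

open Filter Topology
open scoped LinearAlgebra.Projectivization

namespace Pool.Agent.Results.MP_80da57_nt.Conic

/-- The set of `F`-points of the projective plane. -/
abbrev P2 (F : Type) [Field F] : Type := ℙ F (Fin 3 → F)

/-- The topology of `P2 F` for a topological field `F`: the quotient topology
from the space of nonzero vectors of `F ^ 3`. -/
instance topP2 (F : Type) [Field F] [TopologicalSpace F] : TopologicalSpace (P2 F) :=
  TopologicalSpace.coinduced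
    (fun v : {v : Fin 3 → F // v ≠ 0} => Projectivization.mk F v.1 v.2) inferInstance

/-- The coordinatewise inclusion of `ℚ ^ 3` in `F ^ 3`. -/
def castVec (F : Type) [Field F] [CharZero F] :
    (Fin 3 → ℚ) →ₛₗ[Rat.castHom F] (Fin 3 → F) where
  toFun v i := (v i : F)
  map_add' v w := by ext i; simp
  map_smul' c v := by ext i; simp

theorem castVec_injective (F : Type) [Field F] [CharZero F] :
    Function.Injective (castVec F) := fun v w h => by
  ext i
  exact (Rat.castHom F).injective (congrFun h i)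

/-- The inclusion of the rational points of the plane in its `F`-points. -/
def incl (F : Type) [Field F] [CharZero F] : P2 ℚ → P2 F :=
  Projectivization.map (castVec F) (castVec_injective F)

instance primeFact (p : Nat.Primes) : Fact (Nat.Prime (p : ℕ)) := ⟨p.2⟩

/-- The adelic points of the projective plane over `ℚ`: the product over all places,
with the product topology. -/
abbrev AdelicP2 : Type := P2 ℝ × ((p : Nat.Primes) → P2 ℚ_[(p : ℕ)])

/-- The diagonal embedding of the rational points in the adelic points. -/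
noncomputable def diag (Q : P2 ℚ) : AdelicP2 := (incl ℝ Q, fun p => incl ℚ_[(p : ℕ)] Q)

/-- The closure in the adelic points of a set of rational points. -/
noncomputable def adelicClosure (S : Set (P2 ℚ)) : Set AdelicP2 := closure (diag '' S)

/-- The `F`-points of the plane curve defined by a homogeneous polynomial over `ℚ`. -/
def zeroLocus (G : MvPolynomial (Fin 3) ℚ) (F : Type) [Field F] [CharZero F] : Set (P2 F) :=
  {Q | MvPolynomial.eval₂ (Rat.castHom F) Q.rep G = 0}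

/-- The adelic points of the plane curve defined by a homogeneous polynomial over `ℚ`. -/
def adelicZeroLocus (G : MvPolynomial (Fin 3) ℚ) : Set AdelicP2 :=
  {a | a.1 ∈ zeroLocus G ℝ ∧ ∀ p : Nat.Primes, a.2 p ∈ zeroLocus G ℚ_[(p : ℕ)]}

/-- The forward orbit of a rational point under the automorphism of the plane
given by an invertible linear map. -/
def orbit (L : (Fin 3 → ℚ) ≃ₗ[ℚ] (Fin 3 → ℚ)) (P : P2 ℚ) : Set (P2 ℚ) :=
  {Q | ∃ n : ℕ, Q = (Projectivization.map L.toLinearMap L.injective)^[n] P}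

/-- The linear automorphism `(x, y, z) ↦ (2 (x + z), y, 2 z)`. -/
def lin : (Fin 3 → ℚ) ≃ₗ[ℚ] (Fin 3 → ℚ) where
  toFun v := ![2 * (v 0 + v 2), v 1, 2 * v 2]
  invFun v := ![(v 0 - v 2) / 2, v 1, v 2 / 2]
  map_add' v w := by
    ext i
    fin_cases i <;> simp <;> ring
  map_smul' c v := by
    ext i
    fin_cases i <;> simp <;> ring
  left_inv v := by
    ext i
    fin_cases i
    · simp
      ring
    · simp
    · simp
  right_inv v := by
    ext i
    fin_cases i <;> simp <;> ring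

/-- The conic `x y = z ^ 2`. -/
noncomputable def conic : MvPolynomial (Fin 3) ℚ :=
  MvPolynomial.X 0 * MvPolynomial.X 1 - MvPolynomial.X 2 ^ 2

/-- The starting point `(0 : 1 : 1)`. -/
def start : P2 ℚ := Projectivization.mk ℚ ![0, 1, 1] (fun h => by
  have := congrFun h 1
  simp at this)

/-! The tower sequence `1, 2, 4, 16, 65536, ...` -/

def tow : ℕ → ℕ
  | 0 => 1
  | (k + 1) => 2 ^ tow k

theorem tow_lt (k : ℕ) : tow k < tow (k + 1) := Nat.lt_two_pow_self

theorem le_tow (k : ℕ) : k ≤ tow k := by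
  induction k with
  | zero => exact Nat.zero_le _
  | succ k ih => exact Nat.succ_le_of_lt (lt_of_le_of_lt ih (tow_lt k))

theorem two_pow_modEq_odd (m : ℕ) (hm : m.Coprime 2) (hm0 : 0 < m) (a b : ℕ)
    (h : a ≡ b [MOD m.totient]) : 2 ^ a ≡ 2 ^ b [MOD m] := by
  have h2 : Nat.Coprime 2 m := hm.symm
  have : NeZero m := ⟨hm0.ne'⟩
  set u := ZMod.unitOfCoprime 2 h2 with hu
  have hord : orderOf u ∣ m.totient := by
    rw [← ZMod.card_units_eq_totient]
    exact orderOf_dvd_card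
  have h3 : u ^ a = u ^ b := pow_eq_pow_iff_modEq.2 (h.of_dvd hord)
  have h4 : ((2 : ℕ) : ZMod m) ^ a = ((2 : ℕ) : ZMod m) ^ b := by
    have := congrArg (Units.val) h3
    simpa [hu] using this
  have h5 : ((2 ^ a : ℕ) : ZMod m) = ((2 ^ b : ℕ) : ZMod m) := by
    push_cast at h4 ⊢
    exact h4
  exact (ZMod.natCast_eq_natCast_iff _ _ _).1 h5

theorem tow_stable (M : ℕ) (hM : 0 < M) : ∃ k0, ∀ k ≥ k0, tow (k + 1) ≡ tow k [MOD M] := by
  induction M using Nat.strong_induction_on with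
  | _ M ih =>
    rcases Nat.exists_eq_two_pow_mul_odd hM.ne' with ⟨a, m, hodd, hMm⟩
    by_cases h1 : M = 1
    · exact ⟨0, fun k _ => by rw [h1]; exact Nat.modEq_one⟩
    have hmpos : 0 < m := hodd.pos
    have hphi : m.totient < M := by
      rcases Nat.eq_or_lt_of_le (Nat.succ_le_of_lt hmpos) with h | h
      · have : m = 1 := h.symm
        subst this
        simp
        omega
      · calc m.totient < m := Nat.totient_lt m h
          _ ≤ M := by rw [hMm]; exact Nat.le_mul_of_pos_left _ (by positivity)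
    obtain ⟨k0, hk0⟩ := ih m.totient hphi (Nat.totient_pos.2 hmpos)
    refine ⟨max k0 a + 1, fun k hk => ?_⟩
    obtain ⟨j, rfl⟩ : ∃ j, k = j + 1 := ⟨k - 1, by omega⟩
    have hj1 : k0 ≤ j := by omega
    have hj2 : a ≤ j := by omega
    have hodd' : m.Coprime 2 := (Nat.coprime_two_right.2 hodd)
    have e1 : tow (j + 1 + 1) ≡ tow (j + 1) [MOD m] :=
      two_pow_modEq_odd m hodd' hmpos _ _ (hk0 j hj1)
    have d1 : 2 ^ a ∣ tow (j + 1) := pow_dvd_pow 2 (hj2.trans (le_tow j))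
    have d2 : 2 ^ a ∣ tow (j + 1 + 1) :=
      pow_dvd_pow 2 ((hj2.trans (Nat.le_succ j)).trans (le_tow (j + 1)))
    have e2 : tow (j + 1 + 1) ≡ tow (j + 1) [MOD 2 ^ a] :=
      ((Nat.modEq_zero_iff_dvd.2 d2)).trans (Nat.modEq_zero_iff_dvd.2 d1).symm
    rw [hMm]
    exact (Nat.modEq_and_modEq_iff_modEq_mul
      ((Nat.Coprime.pow_left a hodd'.symm))).1 ⟨e2, e1⟩

theorem tow_stable' (M : ℕ) (hM : 0 < M) :
    ∃ k0, ∀ k ≥ k0, tow k ≡ tow k0 [MOD M] := by
  obtain ⟨k0, h⟩ := tow_stable M hM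
  refine ⟨k0, fun k hk => ?_⟩
  induction k, hk using Nat.le_induction with
  | base => exact Nat.ModEq.refl _
  | succ k hk ih => exact (h k hk).trans ih

theorem tow_padic (p : ℕ) [hp : Fact p.Prime] :
    ∃ τ : ℚ_[p], Tendsto (fun k => (tow k : ℚ_[p])) atTop (𝓝 τ) := by
  apply cauchySeq_tendsto_of_complete
  rw [Metric.cauchySeq_iff']
  intro ε hε
  have hp1 : 1 < (p : ℝ) := by exact_mod_cast hp.out.one_lt
  obtain ⟨j, hj⟩ : ∃ j : ℕ, ((p : ℝ)⁻¹) ^ j < ε :=
    exists_pow_lt_of_lt_one hε (inv_lt_one_of_one_lt₀ hp1)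
  obtain ⟨k0, hk0⟩ := tow_stable' (p ^ j) (pow_pos hp.out.pos j)
  refine ⟨k0, fun n hn => ?_⟩
  rw [dist_eq_norm]
  have h1 : ((p ^ j : ℕ) : ℤ) ∣ (tow n : ℤ) - (tow k0 : ℤ) :=
    (Nat.modEq_iff_dvd.1 (hk0 n hn).symm)
  have h2 : ‖((((tow n : ℤ) - (tow k0 : ℤ) : ℤ)) : ℚ_[p])‖ ≤ (p : ℝ) ^ (-j : ℤ) := by
    rw [Padic.norm_int_le_pow_iff_dvd]
    exact_mod_cast h1
  push_cast at h2
  calc _ ≤ (p : ℝ) ^ (-j : ℤ) := h2
    _ = ((p : ℝ)⁻¹) ^ j := by rw [zpow_neg, zpow_natCast, inv_pow]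
    _ < ε := hj

/-! The orbit. -/

theorem vec_ne {F : Type} [Field F] (a b : F) : (![a, 1, b] : Fin 3 → F) ≠ 0 := fun h => by
  have := congrFun h 1
  simp at this

theorem orbit_eq (n : ℕ) :
    (Projectivization.map lin.toLinearMap lin.injective)^[n] start =
      Projectivization.mk ℚ ![(n : ℚ) * 2 ^ n, 1, 2 ^ n] (vec_ne _ _) := by
  induction n with
  | zero =>
    simp [start]
  | succ n ih =>
    rw [Function.iterate_succ_apply', ih, Projectivization.map_mk,
      Projectivization.mk_eq_mk_iff']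
    refine ⟨1, ?_⟩
    ext i
    fin_cases i <;> simp [lin] <;> ring

theorem incl_mk (F : Type) [Field F] [CharZero F] (a b : ℚ) :
    incl F (Projectivization.mk ℚ ![a, 1, b] (vec_ne _ _)) =
      Projectivization.mk F ![(a : F), 1, (b : F)] (vec_ne _ _) := by
  unfold incl
  rw [Projectivization.map_mk, Projectivization.mk_eq_mk_iff']
  refine ⟨1, ?_⟩
  ext i
  fin_cases i <;> simp [castVec]


theorem eval₂_smul (G : MvPolynomial (Fin 3) ℚ) (d : ℕ) (hG : G.IsHomogeneous d)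
    (F : Type) [Field F] [CharZero F] (v : Fin 3 → F) (c : F) :
    MvPolynomial.eval₂ (Rat.castHom F) (c • v) G
      = c ^ d * MvPolynomial.eval₂ (Rat.castHom F) v G := by
  rw [MvPolynomial.eval₂_eq, MvPolynomial.eval₂_eq, Finset.mul_sum]
  refine Finset.sum_congr rfl fun m hm => ?_
  have h1 : ∑ i ∈ m.support, m i = d := by
    have := hG (MvPolynomial.mem_support_iff.1 hm)
    rw [Finsupp.weight_apply, Finsupp.sum] at this
    simpa using this
  have h2 : ∏ i ∈ m.support, (c • v) i ^ m i = c ^ d * ∏ i ∈ m.support, v i ^ m i := by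
    rw [← h1, ← Finset.prod_pow_eq_pow_sum, ← Finset.prod_mul_distrib]
    refine Finset.prod_congr rfl fun i _ => ?_
    simp [mul_pow]
  rw [h2]
  ring

theorem mem_zeroLocus_mk (G : MvPolynomial (Fin 3) ℚ) (d : ℕ) (hG : G.IsHomogeneous d)
    (F : Type) [Field F] [CharZero F] (v : Fin 3 → F) (hv : v ≠ 0) :
    Projectivization.mk F v hv ∈ zeroLocus G F ↔ MvPolynomial.eval₂ (Rat.castHom F) v G = 0 := by
  obtain ⟨a, ha⟩ := Projectivization.exists_smul_eq_mk_rep F v hv
  have h0 : Projectivization.mk F v hv ∈ zeroLocus G F ↔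
      MvPolynomial.eval₂ (Rat.castHom F) (Projectivization.mk F v hv).rep G = 0 := Iff.rfl
  rw [h0, ← ha, Units.smul_def, eval₂_smul G d hG F v (a : F)]
  constructor
  · intro h
    rcases mul_eq_zero.1 h with h | h
    · exact absurd h (pow_ne_zero _ a.ne_zero)
    · exact h
  · intro h
    rw [h, mul_zero]

theorem conic_homogeneous : conic.IsHomogeneous 2 := by
  unfold conic
  apply MvPolynomial.IsHomogeneous.sub
  · exact (MvPolynomial.isHomogeneous_X ℚ 0).mul (MvPolynomial.isHomogeneous_X ℚ 1)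
  · exact (MvPolynomial.isHomogeneous_X ℚ (2 : Fin 3)).pow 2

theorem mem_conic_mk (F : Type) [Field F] [CharZero F] (v : Fin 3 → F) (hv : v ≠ 0) :
    Projectivization.mk F v hv ∈ zeroLocus conic F ↔ v 0 * v 1 = v 2 ^ 2 := by
  rw [mem_zeroLocus_mk conic 2 conic_homogeneous F v hv]
  unfold conic
  simp [sub_eq_zero]

theorem orbit_not_mem_conic (Q : P2 ℚ) (hQ : Q ∈ orbit lin start) : Q ∉ zeroLocus conic ℚ := by
  obtain ⟨n, rfl⟩ := hQ
  rw [orbit_eq, mem_conic_mk]
  intro h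
  simp only [Matrix.cons_val_zero, Matrix.cons_val_one, Matrix.cons_val] at h
  have h2 : ((n : ℚ) * 2 ^ n) * 1 = (2 : ℚ) ^ n * 2 ^ n := by rw [h]; ring
  have h3 : (n : ℚ) = 2 ^ n := by
    have h4 : (2 : ℚ) ^ n ≠ 0 := by positivity
    exact mul_right_cancel₀ h4 (by rw [mul_one] at h2; exact h2)
  have h5 : n = 2 ^ n := by exact_mod_cast h3
  exact absurd h5 (Nat.lt_two_pow_self).ne

theorem tendsto_mk (F : Type) [Field F] [TopologicalSpace F] {ι : Type} {l : Filter ι}
    (u : ι → {v : Fin 3 → F // v ≠ 0}) (v : {v : Fin 3 → F // v ≠ 0})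
    (h : Tendsto (fun k => (u k).1) l (𝓝 v.1)) :
    Tendsto (fun k => Projectivization.mk F (u k).1 (u k).2) l
      (𝓝 (Projectivization.mk F v.1 v.2)) := by
  have h1 : Tendsto u l (𝓝 v) := tendsto_subtype_rng.2 h
  have h2 : Continuous
      (fun v : {v : Fin 3 → F // v ≠ 0} => Projectivization.mk F v.1 v.2) :=
    continuous_coinduced_rng
  exact (h2.tendsto v).comp h1


/-- The rational points `f ^ (tow k) (start)` of the orbit. -/
def sub (k : ℕ) : P2 ℚ :=
  Projectivization.mk ℚ ![(tow k : ℚ) * tow (k + 1), 1, tow (k + 1)] (vec_ne _ _)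

theorem sub_mem (k : ℕ) : sub k ∈ orbit lin start := by
  refine ⟨tow k, ?_⟩
  rw [orbit_eq]
  unfold sub
  rw [Projectivization.mk_eq_mk_iff']
  refine ⟨1, ?_⟩
  ext i
  fin_cases i <;> simp [tow]

theorem sub_padic (p : ℕ) [Fact p.Prime] :
    ∃ a : P2 ℚ_[p], a ∈ zeroLocus conic ℚ_[p] ∧
      Tendsto (fun k => incl ℚ_[p] (sub k)) atTop (𝓝 a) := by
  obtain ⟨τ, hτ⟩ := tow_padic p
  refine ⟨Projectivization.mk ℚ_[p] ![τ * τ, 1, τ] (vec_ne _ _), ?_, ?_⟩
  · rw [mem_conic_mk]
    simp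
    ring
  · have h1 : ∀ k, incl ℚ_[p] (sub k) =
        Projectivization.mk ℚ_[p] ![(tow k : ℚ_[p]) * tow (k + 1), 1, tow (k + 1)]
          (vec_ne _ _) := by
      intro k
      unfold sub
      rw [incl_mk]
      simp
    simp only [h1]
    refine tendsto_mk ℚ_[p] (fun k => ⟨![(tow k : ℚ_[p]) * tow (k + 1), 1, tow (k + 1)],
      vec_ne _ _⟩) ⟨![τ * τ, 1, τ], vec_ne _ _⟩ ?_
    rw [tendsto_pi_nhds]
    intro i
    have h2 : Tendsto (fun k => (tow (k + 1) : ℚ_[p])) atTop (𝓝 τ) :=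
      (tendsto_add_atTop_iff_nat (f := fun k => (tow k : ℚ_[p])) 1).2 hτ
    fin_cases i
    · simpa using hτ.mul h2
    · simp
    · simpa using h2

theorem tow_pos (k : ℕ) : 0 < tow k := by
  cases k with
  | zero => exact Nat.one_pos
  | succ k => exact Nat.pos_of_ne_zero (by simp [tow])

theorem tendsto_tow : Tendsto (fun k => (tow k : ℝ)) atTop atTop :=
  tendsto_natCast_atTop_atTop.comp (tendsto_atTop_mono le_tow tendsto_id)

theorem vec_ne' {F : Type} [Field F] (a b : F) : (![1, a, b] : Fin 3 → F) ≠ 0 := fun h => by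
  have := congrFun h 0
  simp at this

theorem sub_real :
    ∃ a : P2 ℝ, a ∈ zeroLocus conic ℝ ∧
      Tendsto (fun k => incl ℝ (sub k)) atTop (𝓝 a) := by
  refine ⟨Projectivization.mk ℝ ![1, 0, 0] (vec_ne' _ _), ?_, ?_⟩
  · rw [mem_conic_mk]
    simp
  · have h1 : ∀ k, incl ℝ (sub k) =
        Projectivization.mk ℝ ![1, ((tow k : ℝ) * tow (k + 1))⁻¹, (tow k : ℝ)⁻¹]
          (vec_ne' _ _) := by
      intro k
      unfold sub
      rw [incl_mk, Projectivization.mk_eq_mk_iff']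
      have h2 : (tow k : ℝ) ≠ 0 := by exact_mod_cast (tow_pos k).ne'
      have h3 : (tow (k + 1) : ℝ) ≠ 0 := by exact_mod_cast (tow_pos (k + 1)).ne'
      refine ⟨(tow k : ℝ) * tow (k + 1), ?_⟩
      ext i
      fin_cases i
      · simp
      · simp
        field_simp
      · simp
        field_simp
    simp only [h1]
    refine tendsto_mk ℝ (fun k => ⟨![1, ((tow k : ℝ) * tow (k + 1))⁻¹, (tow k : ℝ)⁻¹],
      vec_ne' _ _⟩) ⟨![1, 0, 0], vec_ne' _ _⟩ ?_
    rw [tendsto_pi_nhds]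
    intro i
    have h2 : Tendsto (fun k => (tow (k + 1) : ℝ)) atTop atTop :=
      (tendsto_add_atTop_iff_nat (f := fun k => (tow k : ℝ)) 1).2 tendsto_tow
    fin_cases i
    · simp
    · have h4 : Tendsto (fun k => ((tow k : ℝ) * tow (k + 1))⁻¹) atTop (𝓝 0) :=
        tendsto_inv_atTop_zero.comp (tendsto_tow.atTop_mul_atTop₀ h2)
      exact h4
    · have h4 : Tendsto (fun k => (tow k : ℝ)⁻¹) atTop (𝓝 0) :=
        tendsto_inv_atTop_zero.comp tendsto_tow
      exact h4

/-- Some adelic point of the conic lies in the adelic closure of the orbit. -/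
theorem exists_adelic :
    ∃ a : AdelicP2, a ∈ adelicZeroLocus conic ∧ a ∈ adelicClosure (orbit lin start) := by
  obtain ⟨r, hr1, hr2⟩ := sub_real
  have hp : ∀ p : Nat.Primes, ∃ a : P2 ℚ_[(p : ℕ)], a ∈ zeroLocus conic ℚ_[(p : ℕ)] ∧
      Tendsto (fun k => incl ℚ_[(p : ℕ)] (sub k)) atTop (𝓝 a) := fun p => sub_padic (p : ℕ)
  choose b hb1 hb2 using hp
  refine ⟨(r, b), ⟨hr1, hb1⟩, ?_⟩
  have h1 : Tendsto (fun k => diag (sub k)) atTop (𝓝 (r, b)) := by
    unfold diag
    exact hr2.prodMk_nhds (tendsto_pi_nhds.2 hb2)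
  refine mem_closure_of_tendsto h1 (Eventually.of_forall fun k => ?_)
  exact Set.mem_image_of_mem _ (sub_mem k)

/-! Zariski density of the orbit. -/

theorem tendsto_ratio (a b a' b' : ℕ) (h : b < b' ∨ (b = b' ∧ a < a')) :
    Tendsto (fun n : ℕ => ((n : ℝ) ^ a * (2 ^ n) ^ b) / ((n : ℝ) ^ a' * (2 ^ n) ^ b'))
      atTop (𝓝 0) := by
  rcases h with h | ⟨rfl, h⟩
  · have h1 : Tendsto (fun n : ℕ => (n : ℝ) ^ a / 2 ^ n) atTop (𝓝 0) :=
      tendsto_pow_const_div_const_pow_of_one_lt a one_lt_two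
    refine squeeze_zero' (Eventually.of_forall fun n => by positivity) ?_ h1
    filter_upwards [eventually_ge_atTop 1] with n hn
    have hn' : (1 : ℝ) ≤ n := by exact_mod_cast hn
    have h2 : (1 : ℝ) ≤ (n : ℝ) ^ a' := one_le_pow₀ hn'
    have h3 : (2 ^ n : ℝ) ^ b * 2 ^ n ≤ (2 ^ n) ^ b' := by
      rw [← pow_succ]
      exact pow_le_pow_right₀ (one_le_pow₀ one_le_two) h
    rw [div_le_div_iff₀ (by positivity) (by positivity)]
    calc (n : ℝ) ^ a * (2 ^ n) ^ b * 2 ^ n = (n : ℝ) ^ a * (1 * ((2 ^ n) ^ b * 2 ^ n)) := by ring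
      _ ≤ (n : ℝ) ^ a * ((n : ℝ) ^ a' * (2 ^ n) ^ b') := by gcongr
  · have h1 : Tendsto (fun n : ℕ => (n : ℝ)⁻¹) atTop (𝓝 0) :=
      tendsto_inv_atTop_zero.comp tendsto_natCast_atTop_atTop
    refine squeeze_zero' (Eventually.of_forall fun n => by positivity) ?_ h1
    filter_upwards [eventually_ge_atTop 1] with n hn
    have hn' : (1 : ℝ) ≤ n := by exact_mod_cast hn
    have hn0 : (0 : ℝ) < n := by positivity
    have h2 : (n : ℝ) ^ a * n ≤ (n : ℝ) ^ a' := by
      rw [← pow_succ]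
      exact pow_le_pow_right₀ hn' h
    rw [mul_div_mul_right _ _ (by positivity), ← one_div,
      div_le_div_iff₀ (by positivity) (by positivity)]
    linarith

theorem zariski_dense (G : MvPolynomial (Fin 3) ℚ) (d : ℕ) (hG : G.IsHomogeneous d)
    (h0 : G ≠ 0) : ∃ Q ∈ orbit lin start, Q ∉ zeroLocus G ℚ := by
  by_contra hcon
  push Not at hcon
  have hval : ∀ n : ℕ, MvPolynomial.eval₂ (Rat.castHom ℝ)
      ![(n : ℝ) * 2 ^ n, 1, 2 ^ n] G = 0 := by
    intro n
    have h1 := hcon _ ⟨n, rfl⟩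
    rw [orbit_eq, mem_zeroLocus_mk G d hG] at h1
    have h2 : MvPolynomial.eval₂ (Rat.castHom ℝ)
        (fun i => (Rat.castHom ℝ) ((![(n : ℚ) * 2 ^ n, 1, 2 ^ n] : Fin 3 → ℚ) i)) G
        = Rat.castHom ℝ (MvPolynomial.eval₂ (Rat.castHom ℚ)
          (![(n : ℚ) * 2 ^ n, 1, 2 ^ n] : Fin 3 → ℚ) G) := by
      have e : (Rat.castHom ℝ) = (Rat.castHom ℝ).comp (Rat.castHom ℚ) := Subsingleton.elim _ _
      conv_lhs => rw [e]
      rw [MvPolynomial.hom_eval₂]
      rfl
    rw [h1, map_zero] at h2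
    convert h2 using 2
    ext i
    fin_cases i <;> simp
  -- the dominant monomial
  have hne : G.support.Nonempty := MvPolynomial.support_nonempty.2 h0
  obtain ⟨M, hM, hmax⟩ := Finset.exists_max_image G.support
    (fun m => toLex ((m 0 + m 2 : ℕ), (m 0 : ℕ))) hne
  have hdeg : ∀ m ∈ G.support, m 0 + m 1 + m 2 = d := by
    intro m hm
    have := hG (MvPolynomial.mem_support_iff.1 hm)
    rw [Finsupp.weight_apply, Finsupp.sum_fintype _ _ (by simp)] at this
    simp [Fin.sum_univ_three] at this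
    exact this
  have hlim : Tendsto (fun n : ℕ => MvPolynomial.eval₂ (Rat.castHom ℝ)
      ![(n : ℝ) * 2 ^ n, 1, 2 ^ n] G / ((n : ℝ) ^ (M 0) * (2 ^ n) ^ (M 0 + M 2)))
      atTop (𝓝 ((G.coeff M : ℚ) : ℝ)) := by
    have e1 : ∀ n : ℕ, MvPolynomial.eval₂ (Rat.castHom ℝ)
        ![(n : ℝ) * 2 ^ n, 1, 2 ^ n] G / ((n : ℝ) ^ (M 0) * (2 ^ n) ^ (M 0 + M 2))
        = ∑ m ∈ G.support, ((G.coeff m : ℚ) : ℝ) *
          (((n : ℝ) ^ (m 0) * (2 ^ n) ^ (m 0 + m 2)) /
            ((n : ℝ) ^ (M 0) * (2 ^ n) ^ (M 0 + M 2))) := by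
      intro n
      rw [MvPolynomial.eval₂_eq', Finset.sum_div]
      refine Finset.sum_congr rfl fun m _ => ?_
      simp [Fin.prod_univ_three]
      ring
    simp only [e1]
    have e2 : ((G.coeff M : ℚ) : ℝ) = ∑ m ∈ G.support, ((G.coeff m : ℚ) : ℝ) *
        (if m = M then 1 else 0) := by
      simp [Finset.sum_ite_eq', hM]
    rw [e2]
    refine tendsto_finsetSum _ fun m hm => Tendsto.const_mul _ ?_
    by_cases hmM : m = M
    · subst hmM
      simp only [if_true]
      refine Tendsto.congr' ?_ tendsto_const_nhds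
      filter_upwards [eventually_ge_atTop 1] with n hn
      have hn' : (0 : ℝ) < n := by exact_mod_cast hn
      rw [div_self (by positivity)]
    · rw [if_neg hmM]
      apply tendsto_ratio
      have hle := hmax m hm
      rw [Prod.Lex.toLex_le_toLex] at hle
      simp only at hle
      rcases hle with hle | ⟨hle1, hle2⟩
      · exact Or.inl hle
      · refine Or.inr ⟨hle1, lt_of_le_of_ne hle2 fun h00 => hmM ?_⟩
        have d1 := hdeg m hm
        have d2 := hdeg M hM
        ext i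
        fin_cases i
        · exact h00
        · simp at *
          omega
        · simp at *
          omega
  have hzero : Tendsto (fun n : ℕ => MvPolynomial.eval₂ (Rat.castHom ℝ)
      ![(n : ℝ) * 2 ^ n, 1, 2 ^ n] G / ((n : ℝ) ^ (M 0) * (2 ^ n) ^ (M 0 + M 2)))
      atTop (𝓝 0) := by
    simp only [hval, zero_div]
    exact tendsto_const_nhds
  have := tendsto_nhds_unique hlim hzero
  have h3 : G.coeff M = 0 := by exact_mod_cast this
  exact (MvPolynomial.mem_support_iff.1 hM) h3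

/-- The dynamical Brauer-Manin equality fails for the automorphism
`f (x : y : z) = (2 (x + z) : y : 2 z)` of the projective plane over `ℚ`, the point
`P = (0 : 1 : 1)` and the conic `Y : x y = z ^ 2`. -/
theorem result :
    (∀ (G : MvPolynomial (Fin 3) ℚ) (d : ℕ), G.IsHomogeneous d → G ≠ 0 →
      ∃ Q ∈ orbit lin start, Q ∉ zeroLocus G ℚ) ∧
    zeroLocus conic ℚ ∩ orbit lin start = ∅ ∧
    (∃ a : AdelicP2, a ∈ adelicZeroLocus conic ∧ a ∈ adelicClosure (orbit lin start)) ∧
    adelicClosure (zeroLocus conic ℚ ∩ orbit lin start) ≠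
      adelicZeroLocus conic ∩ adelicClosure (orbit lin start) := by
  have h2 : zeroLocus conic ℚ ∩ orbit lin start = ∅ := by
    ext Q
    simp only [Set.mem_inter_iff, Set.mem_empty_iff_false, iff_false, not_and]
    exact fun h1 h2 => orbit_not_mem_conic Q h2 h1
  refine ⟨zariski_dense, h2, exists_adelic, ?_⟩
  obtain ⟨a, ha1, ha2⟩ := exists_adelic
  rw [h2]
  intro h
  have h3 : a ∈ adelicClosure (∅ : Set (P2 ℚ)) := by
    rw [h]
    exact ⟨ha1, ha2⟩
  simp [adelicClosure] at h3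

end Pool.Agent.Results.MP_80da57_nt.Conic
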