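import Mathlib

open Filter Topology

namespace Pool.Agent.Results.MP_80da57_nt.Product

/-- The `F`-points of `X = P^1 x P^1`, where `P^1(F)` is `F` together with the point at
infinity, with the topology of the one-point compactification when `F` is `ℝ` or `ℚ_[p]`. -/
abbrev X (F : Type) : Type := OnePoint F × OnePoint F

/-- The endomorphism `(x, y) ↦ (x + 1, g (y))` of `P^1 x P^1`, for a polynomial `g` with
integer coefficients; both components fix the point at infinity. -/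
noncomputable def f (g : Polynomial ℤ) : X ℚ → X ℚ :=
  Prod.map (OnePoint.map fun x => x + 1) (OnePoint.map fun y => Polynomial.aeval y g)

/-- The inclusion of the rational points in the `F`-points. -/
def incl (F : Type) [DivisionRing F] : X ℚ → X F :=
  Prod.map (OnePoint.map fun x => (x : F)) (OnePoint.map fun x => (x : F))

instance primeFact (p : Nat.Primes) : Fact (Nat.Prime (p : ℕ)) := ⟨p.2⟩

/-- The adelic points of `P^1 x P^1` over `ℚ`, with the product topology. -/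
abbrev AdelicX : Type := X ℝ × ((p : Nat.Primes) → X ℚ_[(p : ℕ)])

/-- The diagonal embedding of the rational points in the adelic points. -/
noncomputable def emb (Q : X ℚ) : AdelicX := (incl ℝ Q, fun p => incl ℚ_[(p : ℕ)] Q)

/-- The closure in the adelic points of a set of rational points. -/
noncomputable def adelicClosure (S : Set (X ℚ)) : Set AdelicX := closure (emb '' S)

/-- The `F`-points of the subvariety `Y : x = y` of `P^1 x P^1`. -/
def Y (F : Type) : Set (X F) := {Q | Q.1 = Q.2}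

/-- The adelic points of `Y`. -/
def adelicY : Set AdelicX := {a | a.1 ∈ Y ℝ ∧ ∀ p : Nat.Primes, a.2 p ∈ Y ℚ_[(p : ℕ)]}

/-- The forward orbit under `f g` of the rational point `(0, b)`. -/
def orbit (g : Polynomial ℤ) (b : ℤ) : Set (X ℚ) :=
  {Q | ∃ n : ℕ, Q = (f g)^[n] (((0 : ℚ) : OnePoint ℚ), ((b : ℚ) : OnePoint ℚ))}

/-- The sequence `b, g (b), g (g (b)), ...` of integers. -/
def seq (g : Polynomial ℤ) (b : ℤ) (n : ℕ) : ℤ := (fun y => g.eval y)^[n] b

theorem seq_succ (g : Polynomial ℤ) (b : ℤ) (n : ℕ) :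
    seq g b (n + 1) = g.eval (seq g b n) := by
  unfold seq
  rw [Function.iterate_succ_apply']

theorem iterate_f (g : Polynomial ℤ) (b : ℤ) (n : ℕ) :
    (f g)^[n] (((0 : ℚ) : OnePoint ℚ), ((b : ℚ) : OnePoint ℚ)) =
      (((n : ℚ) : OnePoint ℚ), (((seq g b n : ℤ) : ℚ) : OnePoint ℚ)) := by
  induction n with
  | zero => simp [seq]
  | succ n ih =>
    rw [Function.iterate_succ_apply', ih, seq_succ]
    unfold f
    simp only [Prod.map_apply, OnePoint.map_some, Prod.mk.injEq]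
    constructor
    · push_cast
      rfl
    · congr 1
      have := Polynomial.aeval_algebraMap_apply ℚ (seq g b n) g
      simpa using this

theorem seq_congr (g : Polynomial ℤ) (b : ℤ) (M : ℤ) (i j : ℕ)
    (h : seq g b i ≡ seq g b j [ZMOD M]) (n : ℕ) :
    seq g b (i + n) ≡ seq g b (j + n) [ZMOD M] := by
  induction n with
  | zero => exact h
  | succ n ih =>
    rw [← add_assoc, ← add_assoc, seq_succ, seq_succ]
    have h1 : (M : ℤ) ∣ seq g b (j + n) - seq g b (i + n) := ih.dvd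
    have h2 : seq g b (j + n) - seq g b (i + n) ∣
        g.eval (seq g b (j + n)) - g.eval (seq g b (i + n)) :=
      Polynomial.sub_dvd_eval_sub _ _ g
    exact (Int.modEq_iff_dvd.2 (h1.trans h2))

/-- The sequence is eventually periodic modulo `M` with a period smaller than `M`. -/
theorem seq_periodic (g : Polynomial ℤ) (b : ℤ)
    (hmiss : ∀ p : ℕ, p.Prime → ∃ c : ℤ, ∀ n, ¬ seq g b n ≡ c [ZMOD p])
    (M : ℕ) (hM : 1 < M) :
    ∃ s t : ℕ, 0 < t ∧ t < M ∧ ∀ n, s ≤ n → seq g b (n + t) ≡ seq g b n [ZMOD M] := by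
  obtain ⟨p, hp, hpM⟩ := Nat.exists_prime_and_dvd hM.ne'
  obtain ⟨c, hc⟩ := hmiss p hp
  have : NeZero M := ⟨by omega⟩
  have hcM : ∀ n, ((seq g b n : ℤ) : ZMod M) ≠ (c : ZMod M) := by
    intro n h
    apply hc n
    have h1 := (ZMod.intCast_eq_intCast_iff _ _ _).1 h
    exact h1.of_dvd (by exact_mod_cast hpM)
  have hcard : (Finset.univ.erase (c : ZMod M)).card < (Finset.range M).card := by
    rw [Finset.card_erase_of_mem (Finset.mem_univ _), Finset.card_univ, ZMod.card,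
      Finset.card_range]
    omega
  obtain ⟨i, hi, j, hj, hij, heq⟩ := Finset.exists_ne_map_eq_of_card_lt_of_maps_to hcard
    (f := fun n => ((seq g b n : ℤ) : ZMod M)) (fun n _ => by
      simp only [Finset.coe_erase, Finset.coe_univ, Set.mem_sdiff, Set.mem_univ,
        Set.mem_singleton_iff, true_and]
      exact hcM n)
  rw [Finset.mem_range] at hi hj
  wlog hlt : i < j generalizing i j
  · exact this j hj i hi hij.symm heq.symm (by omega)
  refine ⟨i, j - i, by omega, by omega, fun n hn => ?_⟩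
  have h1 : seq g b j ≡ seq g b i [ZMOD M] :=
    (ZMod.intCast_eq_intCast_iff _ _ _).1 heq.symm
  have h2 := seq_congr g b M j i h1 (n - i)
  have e1 : j + (n - i) = n + (j - i) := by omega
  have e2 : i + (n - i) = n := by omega
  rw [e1, e2] at h2
  exact h2

theorem seq_periodic' (g : Polynomial ℤ) (b : ℤ)
    (hmiss : ∀ p : ℕ, p.Prime → ∃ c : ℤ, ∀ n, ¬ seq g b n ≡ c [ZMOD p])
    (M : ℕ) (hM : 1 < M) :
    ∃ s t : ℕ, 0 < t ∧ t < M ∧ ∀ m n, s ≤ m → s ≤ n → m ≡ n [MOD t] →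
      seq g b m ≡ seq g b n [ZMOD M] := by
  obtain ⟨s, t, ht0, htM, h⟩ := seq_periodic g b hmiss M hM
  refine ⟨s, t, ht0, htM, ?_⟩
  have key : ∀ k n, s ≤ n → seq g b (n + t * k) ≡ seq g b n [ZMOD M] := by
    intro k
    induction k with
    | zero => intro n _; exact Int.ModEq.refl _
    | succ k ih =>
      intro n hn
      have h1 := h (n + t * k) (by omega)
      have e : n + t * (k + 1) = n + t * k + t := by ring
      rw [e]
      exact h1.trans (ih n hn)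
  intro m n hm hn hmn
  wlog hle : m ≤ n generalizing m n
  · exact (this n m hn hm hmn.symm (by omega)).symm
  obtain ⟨k, hk⟩ := (Nat.modEq_iff_dvd' hle).1 hmn
  have e : n = m + t * k := by omega
  rw [e]
  exact (key k m hm).symm

/-- The times `1, y_1, y_{y_1}, ...` at which the orbit is visited. -/
def time (g : Polynomial ℤ) (b : ℤ) : ℕ → ℕ
  | 0 => 1
  | (k + 1) => (seq g b (time g b k)).toNat

theorem time_succ (g : Polynomial ℤ) (b : ℤ) (hgrow : ∀ n : ℕ, (n : ℤ) < seq g b n) (k : ℕ) :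
    (time g b (k + 1) : ℤ) = seq g b (time g b k) := by
  have := hgrow (time g b k)
  change ((seq g b (time g b k)).toNat : ℤ) = _
  rw [Int.toNat_of_nonneg (by omega)]

theorem le_time (g : Polynomial ℤ) (b : ℤ) (hgrow : ∀ n : ℕ, (n : ℤ) < seq g b n) (k : ℕ) :
    k ≤ time g b k := by
  induction k with
  | zero => exact Nat.zero_le _
  | succ k ih =>
    have h1 := time_succ g b hgrow k
    have h2 := hgrow (time g b k)
    omega

theorem time_stable (g : Polynomial ℤ) (b : ℤ)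
    (hmiss : ∀ p : ℕ, p.Prime → ∃ c : ℤ, ∀ n, ¬ seq g b n ≡ c [ZMOD p])
    (hgrow : ∀ n : ℕ, (n : ℤ) < seq g b n) (M : ℕ) (hM : 0 < M) :
    ∃ k0, ∀ k ≥ k0, time g b (k + 1) ≡ time g b k [MOD M] := by
  induction M using Nat.strong_induction_on with
  | _ M ih =>
    by_cases h1 : M = 1
    · exact ⟨0, fun k _ => by rw [h1]; exact Nat.modEq_one⟩
    obtain ⟨s, t, ht0, htM, h⟩ := seq_periodic' g b hmiss M (by omega)
    obtain ⟨k0, hk0⟩ := ih t htM ht0
    refine ⟨max k0 s + 1, fun k hk => ?_⟩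
    obtain ⟨j, rfl⟩ : ∃ j, k = j + 1 := ⟨k - 1, by omega⟩
    have hj1 : k0 ≤ j := by omega
    have hj2 : s ≤ j := by omega
    have h2 := h _ _ (hj2.trans ((Nat.le_succ j).trans (le_time g b hgrow (j + 1))))
      (hj2.trans (le_time g b hgrow j)) (hk0 j hj1)
    rw [← time_succ g b hgrow, ← time_succ g b hgrow] at h2
    exact (Int.natCast_modEq_iff).1 h2

theorem time_stable' (g : Polynomial ℤ) (b : ℤ)
    (hmiss : ∀ p : ℕ, p.Prime → ∃ c : ℤ, ∀ n, ¬ seq g b n ≡ c [ZMOD p])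
    (hgrow : ∀ n : ℕ, (n : ℤ) < seq g b n) (M : ℕ) (hM : 0 < M) :
    ∃ k0, ∀ k ≥ k0, time g b k ≡ time g b k0 [MOD M] := by
  obtain ⟨k0, h⟩ := time_stable g b hmiss hgrow M hM
  refine ⟨k0, fun k hk => ?_⟩
  induction k, hk using Nat.le_induction with
  | base => exact Nat.ModEq.refl _
  | succ k hk ih => exact (h k hk).trans ih

theorem time_padic (g : Polynomial ℤ) (b : ℤ)
    (hmiss : ∀ p : ℕ, p.Prime → ∃ c : ℤ, ∀ n, ¬ seq g b n ≡ c [ZMOD p])
    (hgrow : ∀ n : ℕ, (n : ℤ) < seq g b n) (p : ℕ) [hp : Fact p.Prime] :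
    ∃ τ : ℚ_[p], Tendsto (fun k => (time g b k : ℚ_[p])) atTop (𝓝 τ) := by
  apply cauchySeq_tendsto_of_complete
  rw [Metric.cauchySeq_iff']
  intro ε hε
  have hp1 : 1 < (p : ℝ) := by exact_mod_cast hp.out.one_lt
  obtain ⟨j, hj⟩ : ∃ j : ℕ, ((p : ℝ)⁻¹) ^ j < ε :=
    exists_pow_lt_of_lt_one hε (inv_lt_one_of_one_lt₀ hp1)
  obtain ⟨k0, hk0⟩ := time_stable' g b hmiss hgrow (p ^ j) (pow_pos hp.out.pos j)
  refine ⟨k0, fun n hn => ?_⟩
  rw [dist_eq_norm]
  have h1 : ((p ^ j : ℕ) : ℤ) ∣ (time g b n : ℤ) - (time g b k0 : ℤ) :=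
    (Nat.modEq_iff_dvd.1 (hk0 n hn).symm)
  have h2 : ‖((((time g b n : ℤ) - (time g b k0 : ℤ) : ℤ)) : ℚ_[p])‖ ≤ (p : ℝ) ^ (-j : ℤ) := by
    rw [Padic.norm_int_le_pow_iff_dvd]
    exact_mod_cast h1
  push_cast at h2
  calc _ ≤ (p : ℝ) ^ (-j : ℤ) := h2
    _ = ((p : ℝ)⁻¹) ^ j := by rw [zpow_neg, zpow_natCast, inv_pow]
    _ < ε := hj

/-- The rational points of the orbit at the chosen times. -/
def sub (g : Polynomial ℤ) (b : ℤ) (k : ℕ) : X ℚ :=
  (((time g b k : ℚ) : OnePoint ℚ), ((time g b (k + 1) : ℚ) : OnePoint ℚ))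

theorem sub_mem (g : Polynomial ℤ) (b : ℤ) (hgrow : ∀ n : ℕ, (n : ℤ) < seq g b n) (k : ℕ) :
    sub g b k ∈ orbit g b := by
  refine ⟨time g b k, ?_⟩
  rw [iterate_f, ← time_succ g b hgrow k]
  simp [sub]

theorem sub_padic (g : Polynomial ℤ) (b : ℤ)
    (hmiss : ∀ p : ℕ, p.Prime → ∃ c : ℤ, ∀ n, ¬ seq g b n ≡ c [ZMOD p])
    (hgrow : ∀ n : ℕ, (n : ℤ) < seq g b n) (p : ℕ) [Fact p.Prime] :
    ∃ a : X ℚ_[p], a ∈ Y ℚ_[p] ∧ Tendsto (fun k => incl ℚ_[p] (sub g b k)) atTop (𝓝 a) := by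
  obtain ⟨τ, hτ⟩ := time_padic g b hmiss hgrow p
  refine ⟨((τ : OnePoint ℚ_[p]), (τ : OnePoint ℚ_[p])), rfl, ?_⟩
  have h2 : Tendsto (fun k => (time g b (k + 1) : ℚ_[p])) atTop (𝓝 τ) :=
    (tendsto_add_atTop_iff_nat (f := fun k => (time g b k : ℚ_[p])) 1).2 hτ
  have h3 : Tendsto (fun k => (((time g b k : ℚ_[p]) : OnePoint ℚ_[p]),
      ((time g b (k + 1) : ℚ_[p]) : OnePoint ℚ_[p]))) atTop
      (𝓝 ((τ : OnePoint ℚ_[p]), (τ : OnePoint ℚ_[p]))) :=
    ((OnePoint.continuous_coe.tendsto τ).comp hτ).prodMk_nhds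
      ((OnePoint.continuous_coe.tendsto τ).comp h2)
  refine h3.congr fun k => ?_
  simp [incl, sub]

theorem tendsto_infty (u : ℕ → ℕ) (hu : ∀ k, k ≤ u k) :
    Tendsto (fun k => ((u k : ℝ) : OnePoint ℝ)) atTop (𝓝 OnePoint.infty) := by
  refine OnePoint.tendsto_coe_infty.comp ?_
  rw [Filter.coclosedCompact_eq_cocompact]
  refine Tendsto.mono_right ?_ atTop_le_cocompact
  exact tendsto_natCast_atTop_atTop.comp (tendsto_atTop_mono hu tendsto_id)

theorem sub_real (g : Polynomial ℤ) (b : ℤ)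
    (hgrow : ∀ n : ℕ, (n : ℤ) < seq g b n) :
    ∃ a : X ℝ, a ∈ Y ℝ ∧ Tendsto (fun k => incl ℝ (sub g b k)) atTop (𝓝 a) := by
  refine ⟨(OnePoint.infty, OnePoint.infty), rfl, ?_⟩
  have h3 : Tendsto (fun k => (((time g b k : ℝ) : OnePoint ℝ),
      ((time g b (k + 1) : ℝ) : OnePoint ℝ))) atTop
      (𝓝 ((OnePoint.infty : OnePoint ℝ), (OnePoint.infty : OnePoint ℝ))) :=
    (tendsto_infty _ (le_time g b hgrow)).prodMk_nhds
      (tendsto_infty (fun k => time g b (k + 1))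
        (fun k => (Nat.le_succ k).trans (le_time g b hgrow (k + 1))))
  refine h3.congr fun k => ?_
  simp [incl, sub]

theorem exists_adelic (g : Polynomial ℤ) (b : ℤ)
    (hmiss : ∀ p : ℕ, p.Prime → ∃ c : ℤ, ∀ n, ¬ seq g b n ≡ c [ZMOD p])
    (hgrow : ∀ n : ℕ, (n : ℤ) < seq g b n) :
    ∃ a : AdelicX, a ∈ adelicY ∧ a ∈ adelicClosure (orbit g b) := by
  obtain ⟨r, hr1, hr2⟩ := sub_real g b hgrow
  have hp : ∀ p : Nat.Primes, ∃ a : X ℚ_[(p : ℕ)], a ∈ Y ℚ_[(p : ℕ)] ∧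
      Tendsto (fun k => incl ℚ_[(p : ℕ)] (sub g b k)) atTop (𝓝 a) :=
    fun p => sub_padic g b hmiss hgrow (p : ℕ)
  choose c hc1 hc2 using hp
  refine ⟨(r, c), ⟨hr1, hc1⟩, ?_⟩
  have h1 : Tendsto (fun k => emb (sub g b k)) atTop (𝓝 (r, c)) := by
    unfold emb
    exact hr2.prodMk_nhds (tendsto_pi_nhds.2 hc2)
  refine mem_closure_of_tendsto h1 (Eventually.of_forall fun k => ?_)
  exact Set.mem_image_of_mem _ (sub_mem g b hgrow k)

theorem orbit_not_mem (g : Polynomial ℤ) (b : ℤ) (hgrow : ∀ n : ℕ, (n : ℤ) < seq g b n) :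
    Y ℚ ∩ orbit g b = ∅ := by
  ext Q
  simp only [Set.mem_inter_iff, Set.mem_empty_iff_false, iff_false, not_and]
  rintro hQ ⟨n, rfl⟩
  rw [iterate_f] at hQ
  have h1 : (((n : ℚ) : OnePoint ℚ)) = (((seq g b n : ℤ) : ℚ) : OnePoint ℚ) := hQ
  rw [OnePoint.coe_eq_coe] at h1
  have h2 : (n : ℤ) = seq g b n := by exact_mod_cast h1
  exact absurd h2 (hgrow n).ne

/-- The powers `g = y ^ d` with `d ≥ 2` and the starting value `2` satisfy the two
hypotheses of the theorem. -/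
theorem seq_pow (d n : ℕ) : seq (Polynomial.X ^ d) 2 n = 2 ^ d ^ n := by
  induction n with
  | zero => simp [seq]
  | succ n ih =>
    rw [seq_succ, ih]
    simp [← pow_mul, pow_succ]

theorem pow_grow (d : ℕ) (hd : 2 ≤ d) (n : ℕ) : (n : ℤ) < seq (Polynomial.X ^ d) 2 n := by
  rw [seq_pow]
  have h1 : n < d ^ n := Nat.lt_pow_self (by omega)
  have h2 : d ^ n < 2 ^ d ^ n := Nat.lt_two_pow_self
  exact_mod_cast h1.trans h2

theorem pow_miss (d : ℕ) (hd : 2 ≤ d) (p : ℕ) (hp : p.Prime) :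
    ∃ c : ℤ, ∀ n, ¬ seq (Polynomial.X ^ d) 2 n ≡ c [ZMOD p] := by
  by_cases h2 : p = 2
  · refine ⟨1, fun n h => ?_⟩
    rw [seq_pow, h2] at h
    have h3 : (2 : ℤ) ∣ 1 - 2 ^ d ^ n := by exact_mod_cast h.dvd
    have h0 : d ^ n ≠ 0 := pow_ne_zero n (by omega)
    have h4 : (2 : ℤ) ∣ 2 ^ d ^ n := dvd_pow_self 2 h0
    omega
  · refine ⟨0, fun n h => ?_⟩
    rw [seq_pow] at h
    have h3 : (p : ℤ) ∣ 2 ^ d ^ n := Int.modEq_zero_iff_dvd.1 h
    have h4 : p ∣ 2 ^ d ^ n := by exact_mod_cast h3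
    have h5 := hp.dvd_of_dvd_pow h4
    exact h2 ((Nat.prime_dvd_prime_iff_eq hp Nat.prime_two).1 h5)

/-- The dynamical Brauer-Manin equality fails for `X = P^1 x P^1` over `ℚ`, the endomorphism
`(x, y) ↦ (x + 1, g (y))`, the point `P = (0, b)` and the diagonal `Y`, for every integer
polynomial `g` of degree at least `2` and every integer `b` whose orbit under `g` misses
a residue class modulo each prime and satisfies `g^n (b) > n` for all `n`; the powers
`g = y ^ d` with `d ≥ 2` and `b = 2` satisfy these hypotheses. -/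
theorem result :
    (∀ (g : Polynomial ℤ) (b : ℤ), 2 ≤ g.natDegree →
      (∀ p : ℕ, p.Prime → ∃ c : ℤ, ∀ n : ℕ, ¬ (fun y => g.eval y)^[n] b ≡ c [ZMOD p]) →
      (∀ n : ℕ, (n : ℤ) < (fun y => g.eval y)^[n] b) →
      Y ℚ ∩ orbit g b = ∅ ∧
      (∃ a : AdelicX, a ∈ adelicY ∧ a ∈ adelicClosure (orbit g b)) ∧
      adelicClosure (Y ℚ ∩ orbit g b) ≠ adelicY ∩ adelicClosure (orbit g b)) ∧
    (∀ d : ℕ, 2 ≤ d →
      2 ≤ (Polynomial.X ^ d : Polynomial ℤ).natDegree ∧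
      (∀ p : ℕ, p.Prime → ∃ c : ℤ, ∀ n : ℕ,
        ¬ (fun y => (Polynomial.X ^ d : Polynomial ℤ).eval y)^[n] 2 ≡ c [ZMOD p]) ∧
      (∀ n : ℕ, (n : ℤ) < (fun y => (Polynomial.X ^ d : Polynomial ℤ).eval y)^[n] 2)) := by
  refine ⟨?_, fun d hd => ⟨by simpa using hd, pow_miss d hd, pow_grow d hd⟩⟩
  intro g b _ hmiss hgrow
  have h2 := orbit_not_mem g b hgrow
  refine ⟨h2, exists_adelic g b hmiss hgrow, ?_⟩
  obtain ⟨a, ha1, ha2⟩ := exists_adelic g b hmiss hgrow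
  rw [h2]
  intro h
  have h3 : a ∈ adelicClosure (∅ : Set (X ℚ)) := by
    rw [h]
    exact ⟨ha1, ha2⟩
  simp [adelicClosure] at h3

end Pool.Agent.Results.MP_80da57_nt.Product
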